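import Pool.Agent.H731R3.Cardy.Final

/-!
The case `q = 1` (critical bond percolation on `ℤ²`) in the upper half-plane. The boundary vertices
`x ≤ b` are wired and the boundary to the right of `b` is free: the interface which starts between
`b` and `b + 1` touches the boundary interval `[c, d]`, `b < c`, from the side of the wired
boundary cluster if and only if an open path of the half-plane joins `(-∞, b]` to `[c, d]`. The
probability of this event, and that of its complement, agree up to universal constants with the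
probability that chordal `SLE₆` from `b` to `∞` touches `[c, d + 1]` (Cardy's formula). The same is
proved for the crossing probabilities between two arbitrary boundary intervals.
-/

set_option autoImplicit false

namespace Pool.Agent.Results.MP_216314_pr.HalfPlaneCardy

open MeasureTheory

/-- The square lattice: two points of `ℤ²` are adjacent when they differ by one in exactly one
coordinate. -/
def Z2 : SimpleGraph (ℤ × ℤ) where
  Adj u v := |u.1 - v.1| + |u.2 - v.2| = 1
  symm := ⟨fun u v h => by rw [abs_sub_comm v.1, abs_sub_comm v.2]; exact h⟩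
  loopless := ⟨fun u h => by simp at h⟩

/-- Critical bond percolation (the random-cluster model with `q = 1`, `p = 1/2`): every edge of the
square lattice is open (`true`) with probability `1/2`, independently of the other edges. -/
noncomputable def crit : Measure (Z2.edgeSet → Bool) :=
  Measure.infinitePi (fun _ => ProbabilityTheory.bernoulliMeasure true false
    ⟨1/2, by norm_num, by norm_num⟩)

/-- The graph of the open edges. -/
def openGraph (ω : Z2.edgeSet → Bool) : SimpleGraph (ℤ × ℤ) :=
  SimpleGraph.fromEdgeSet {e | ∃ h : e ∈ Z2.edgeSet, ω ⟨e, h⟩ = true}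

/-- The crossing probability: the probability that an open path of the closed upper half-plane joins
a boundary vertex `(x, 0)`, `x ∈ I`, to a boundary vertex `(y, 0)`, `y ∈ J`. -/
noncomputable def cross (I J : Set ℤ) : ℝ :=
  crit.real {ω | ∃ x ∈ I, ∃ y ∈ J, ∃ p : (openGraph ω).Walk (x, 0) (y, 0), ∀ v ∈ p.support, 0 ≤ v.2}

/-- Cardy's function, of the cross-ratio. -/
noncomputable def cardy (x : ℝ) : ℝ :=
  (∫ u in (0 : ℝ)..x, u ^ (-(2/3) : ℝ) * (1 - u) ^ (-(2/3) : ℝ)) /
    ∫ u in (0 : ℝ)..1, u ^ (-(2/3) : ℝ) * (1 - u) ^ (-(2/3) : ℝ)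

/-- The cross-ratio for which Cardy's formula `cardy (crossRatio z₁ z₂ z₃ z₄)` is the crossing
probability of the half-plane between `[z₁, z₂]` and `[z₃, z₄]`. -/
noncomputable def crossRatio (z₁ z₂ z₃ z₄ : ℝ) : ℝ :=
  ((z₂ - z₁) * (z₄ - z₃)) / ((z₃ - z₁) * (z₄ - z₂))

/-- The probability that chordal `SLE₆` in the upper half-plane from `b` to `∞` touches `[c, d]`,
`b < c < d` (the limit of Cardy's formula as the left end `z₁` tends to `-∞`). -/
noncomputable def hit (b c d : ℝ) : ℝ := cardy ((d - c) / (d - b))

/-- The probability `p` and its complement agree with `x` and its complement up to the factors `c`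
and `C`. -/
def Agree (c C p x : ℝ) : Prop :=
  (c * x ≤ p ∧ p ≤ C * x) ∧ (c * (1 - x) ≤ 1 - p ∧ 1 - p ≤ C * (1 - x))

theorem cross_eq (I J : Set ℤ) : cross I J = H731C.crossProb I J := rfl

/-- **Cardy's formula up to universal constants in the half-plane.** -/
theorem result : ∃ c C : ℝ, 0 < c ∧ 0 < C ∧
    (∀ b x y : ℤ, b < x → x ≤ y → Agree c C (cross (Set.Iic b) (Set.Icc x y)) (hit b x (y + 1))) ∧
    (∀ a b x y : ℤ, a ≤ b → b < x → x ≤ y →
      Agree c C (cross (Set.Icc a b) (Set.Icc x y)) (cardy (crossRatio (a - 1) b x (y + 1)))) := by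
  obtain ⟨c, C, hc, hC, h1, h2⟩ := H731C.cardy_half_plane
  refine ⟨c, C, hc, hC, ?_, ?_⟩
  · intro b x y hbx hxy
    obtain ⟨g1, g2, g3, g4⟩ := h2 b x y hbx hxy
    exact ⟨⟨g1, g2⟩, ⟨g3, g4⟩⟩
  · intro a b x y hab hbx hxy
    obtain ⟨g1, g2, g3, g4⟩ := h1 a b x y hab hbx hxy
    exact ⟨⟨g1, g2⟩, ⟨g3, g4⟩⟩

end Pool.Agent.Results.MP_216314_pr.HalfPlaneCardy
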