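import Pool.Agent.X136.IT.Intf

/-!
# MP_216314_pr: the law of the critical random-cluster interface for `q` close to `1`

The model is the one of the problem (`Pool.Agent.H985R2.BTDefs`): in the rectangle
`[0, m + 1/2] × [0, k + 1/2]` the edges of the left and lower sides (`wired m k`) are open, those
crossing the right and upper sides (`cut m k`) are closed, and the set `ω` of the open edges among the
other ones (`bulk m k`) has a probability proportional to
`√q ^ (number of open edges) * q ^ (number of clusters)`. `rcP q m k A` is the probability of the
event `A`; for `q = 1` this is critical bond percolation. `Interface m k ω` is the whole interface: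
the set of all the medial edges which pass between the wired cluster and the dual cluster of the
free sides.

The theorem: the laws of the interface under the random-cluster model of parameter `q > 0` and
under percolation are at total variation distance at most
`C |q - 1| √(max(m, k) * min(m, k) ^ (3/4))`, with an absolute constant `C`. For squares of side `N` the
bound is `C |q - 1| N ^ (7/8)`. So if `q → 1` with `|q - 1| = o(N ^ (-7/8))` the interface has the same
limit law, in any topology, as the percolation interface.
-/

set_option autoImplicit false

open H974 H985BT

namespace Pool.Agent.Results.MP_216314_pr.InterfaceLaw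

/-- **The law of the critical random-cluster interface for `q` close to `1`.** -/
theorem result : ∃ C : ℝ, 0 < C ∧ ∀ (q : ℝ) (m k : ℕ), 0 < q → 1 ≤ m → 1 ≤ k →
    ∀ X : Set (Set (Vtx × Vtx)),
    |rcP q m k (fun ω => Interface m k ω ∈ X) - rcP 1 m k (fun ω => Interface m k ω ∈ X)| ≤
      C * |q - 1| * Real.sqrt ((max m k : ℕ) * ((min m k : ℕ) : ℝ) ^ (3/4 : ℝ)) :=
  Pool.Agent.X136.IT.interface_law

end Pool.Agent.Results.MP_216314_pr.InterfaceLaw
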