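import Pool.Agent.X136.TR.Lim

/-!
# MP_216314_pr: the trace of the critical random-cluster interface for `q` close to `1`

The model is the one of the problem (`Pool.Agent.H985R2.BTDefs`): in the rectangle
`[0, m + 1/2] × [0, k + 1/2]` the edges of the left and lower sides (`wired m k`) are open, those
crossing the right and upper sides (`cut m k`) are closed, and the set `ω` of the open edges among the
other ones (`bulk m k`) has a probability proportional to
`√q ^ (number of open edges) * q ^ (number of clusters)`. `rcP q m k` is the probability and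
`rcE q m k` the expectation (`Pool.Agent.H985R3.IL.Defs`); for `q = 1` this is critical bond
percolation. `Interface m k ω` is the interface, a set of pairs (primal vertex, dual vertex).

* `Visits m k ω a b c d`: the interface passes next to a primal vertex of the box `[a, b] × [c, d]`.
* `trace δ m k ω`: the interface as a compact subset of the plane: the set of the centers of its medial
  edges, multiplied by the mesh `δ`. `NonemptyCompacts ℂ` has the Hausdorff metric.

The theorem, for any `q > 0` and `N = max m k`:
1. For `s` boxes of the rectangle (they may touch the boundary) the laws of the set of the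
   visited boxes for `q` and for `q = 1` differ on every event by at most `C s |q - 1| N ^ (3/4)`.
2. If the meshes tend to `0`, the rescaled rectangles stay bounded and `|q - 1| N ^ (3/4)` tends to `0`, then
   the expectations of every continuous function of the trace for `q` and for `q = 1` have the same
   limit points: their difference tends to `0`.
-/

set_option autoImplicit false

open H974 H985BT TopologicalSpace Filter Topology
open H985IL (rcE)
open Pool.Agent.X136.TR (Visits trace)

namespace Pool.Agent.Results.MP_216314_pr.InterfaceTrace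

/-- **The trace of the critical random-cluster interface for `q` close to `1`.** -/
theorem result :
    (∃ C : ℝ, 1 ≤ C ∧ ∀ q : ℝ, 0 < q → ∀ m k : ℕ, 1 ≤ m → 1 ≤ k →
      ∀ (s : ℕ) (a b c d : Fin s → ℤ),
      (∀ i, (0 ≤ a i ∧ a i ≤ b i ∧ b i ≤ m) ∧ (0 ≤ c i ∧ c i ≤ d i ∧ d i ≤ k)) →
      ∀ T : Set (Set (Fin s)),
      |rcP q m k (fun ω => {i | Visits m k ω (a i) (b i) (c i) (d i)} ∈ T) -
        rcP 1 m k (fun ω => {i | Visits m k ω (a i) (b i) (c i) (d i)} ∈ T)| ≤
        C * s * |q - 1| * ((max m k : ℕ) : ℝ) ^ (3/4 : ℝ)) ∧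
    ∀ (q δ : ℕ → ℝ) (m k : ℕ → ℕ) (L : ℝ), (∀ j, 0 < q j) → (∀ j, 0 < δ j) →
      Tendsto δ atTop (𝓝 0) → (∀ j, 1 ≤ m j ∧ δ j * m j ≤ L) → (∀ j, 1 ≤ k j ∧ δ j * k j ≤ L) →
      Tendsto (fun j => |q j - 1| * ((max (m j) (k j) : ℕ) : ℝ) ^ (3/4 : ℝ)) atTop (𝓝 0) →
      ∀ G : NonemptyCompacts ℂ → ℝ, Continuous G →
      Tendsto (fun j => rcE (q j) (m j) (k j) (fun ω => G (trace (δ j) (m j) (k j) ω)) -
        rcE 1 (m j) (k j) (fun ω => G (trace (δ j) (m j) (k j) ω))) atTop (𝓝 0) := by
  constructor
  · obtain ⟨C, hC, h⟩ := Pool.Agent.X136.TR.visits_close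
    refine ⟨C, hC, fun q hq m k hm hk s a b c d hab T => ?_⟩
    have := h q hq m k hm hk (Fin s) a b c d hab T
    rwa [Fintype.card_fin] at this
  · intro q δ m k L h1 h2 h3 h4 h5 h6 G hG
    exact Pool.Agent.X136.TR.trace_lim q δ m k L h1 h2 h3 h4 h5 h6 G hG

end Pool.Agent.Results.MP_216314_pr.InterfaceTrace
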