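import Pool.Agent.X136.NW.Win

/-!
# MP_216314_pr: the critical random-cluster interface for `q` close to `1`

The model is the one of the problem (`Pool.Agent.H985R2.BTDefs`): in the rectangle
`[0, m + 1/2] × [0, k + 1/2]` the edges of the left and lower sides (`wired m k`) are open, those
crossing the right and upper sides are closed, and the set `ω` of the open edges among the other ones
(`bulk m k`) has a probability proportional to `√q ^ (number of open edges) * q ^ (number of
clusters)`; `rcP q m k A` is the probability of the event `A`. For `q = 1` this is critical bond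
percolation. The parameter `q > 0` is arbitrary, `N = max m k`.

* Joint law of crossings: let `A_i` (`i < s`) be connection events of sub-rectangles: some vertex of
  `I_i` is joined to some vertex of `J_i` by open edges of the sub-rectangle, where `I_i`, `J_i` are any
  sets of vertices which are not strictly inside the sub-rectangle. Then the laws of the random
  set `{i : A_i}` under the random-cluster model with parameter `q` and under percolation differ at most
  by `C s |q - 1| N ^ (3/4)` on every event.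
* The interface: the same for the events `the interface touches the right side at a height of Y_i`.
* If `|q - 1| ≤ β n ^ (-3/4)`, a vertex at distance more than `n` from the sides is joined to
  the boundary of the box of radius `n` around it with probability of order `n ^ (-5/48)`, and
  the crossing probabilities of the rectangles of bounded aspect ratio and size at most `n` are bounded
  away from `0` and `1` (`q < 1` is allowed, where no positive association is available).

So when `q` tends to `1` with `|q - 1| = o(N ^ (-3/4))`, the crossing events and the set of the places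
where the interface touches the boundary have the same limit laws as for percolation (`SLE_6`).
-/

set_option autoImplicit false

open H974 H985BT
open Pool.Agent.X136.NW.Model (Inside Linked Crossed ArmAt)

namespace Pool.Agent.Results.MP_216314_pr.NearPercolationWindow

/-- **The critical random-cluster model for `q` close to `1`.** -/
theorem result :
    (∃ C : ℝ, 1 ≤ C ∧ ∀ q : ℝ, 0 < q → ∀ m k : ℕ, 1 ≤ m → 1 ≤ k → ∀ (s : ℕ) (T : Set (Set (Fin s))),
      (∀ (a b c d : Fin s → ℤ) (I J : Fin s → Set Vtx),
        (∀ i, 0 ≤ a i ∧ b i ≤ m ∧ 0 ≤ c i ∧ d i ≤ k) →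
        (∀ i, ∀ v ∈ I i ∪ J i, ¬ Inside (a i) (b i) (c i) (d i) v) →
        |rcP q m k (fun ω => {i | Linked m k (a i) (b i) (c i) (d i) (I i) (J i) ω} ∈ T) -
          rcP 1 m k (fun ω => {i | Linked m k (a i) (b i) (c i) (d i) (I i) (J i) ω} ∈ T)| ≤
          C * s * |q - 1| * ((max m k : ℕ) : ℝ) ^ (3/4 : ℝ)) ∧
      ∀ Y : Fin s → Set ℕ, (∀ i, ∀ y ∈ Y i, y ≤ k) →
        |rcP q m k (fun ω => {i | ∃ y ∈ Y i, TouchRight m k ω y} ∈ T) -
          rcP 1 m k (fun ω => {i | ∃ y ∈ Y i, TouchRight m k ω y} ∈ T)| ≤
          C * s * |q - 1| * ((max m k : ℕ) : ℝ) ^ (3/4 : ℝ)) ∧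
    ∃ κ β c C : ℝ, 0 < κ ∧ 0 < β ∧ 0 < c ∧ 0 < C ∧ ∀ n : ℕ, 1 ≤ n → ∀ q : ℝ, 0 < q →
      |q - 1| ≤ β * (n:ℝ) ^ (-(3/4) : ℝ) → ∀ m k : ℕ,
      (∀ v : Vtx, n < v.1 → v.1 + n ≤ m → n < v.2 → v.2 + n ≤ k →
        c * (n:ℝ) ^ (-(5/48) : ℝ) ≤ rcP q m k (ArmAt m k n v) ∧
        rcP q m k (ArmAt m k n v) ≤ C * (n:ℝ) ^ (-(5/48) : ℝ)) ∧
      ∀ a b a' b' : ℤ, 1 ≤ a → a < b → b ≤ m → 1 ≤ a' → a' < b' → b' ≤ k →
        (b' - a' ≤ n → b - a ≤ 16 * (b' - a') → κ ≤ rcP q m k (Crossed m k a b a' b')) ∧
        (b - a ≤ n → b' - a' + 1 ≤ 16 * (b - a - 1) →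
          rcP q m k (Crossed m k a b a' b') ≤ 1 - κ) := by
  obtain ⟨C1, hC1, h1⟩ := Pool.Agent.X136.NW.joint_close
  obtain ⟨C2, hC2, h2⟩ := Pool.Agent.X136.NW.touch_close
  refine ⟨⟨max C1 C2, hC1.trans (le_max_left _ _), ?_⟩, Pool.Agent.X136.NW.window⟩
  intro q hq m k hm hk s T
  have hp : 0 ≤ s * |q - 1| * ((max m k : ℕ) : ℝ) ^ (3/4 : ℝ) := by positivity
  have e : ∀ C : ℝ, C * s * |q - 1| * ((max m k : ℕ) : ℝ) ^ (3/4 : ℝ) =
      C * (s * |q - 1| * ((max m k : ℕ) : ℝ) ^ (3/4 : ℝ)) := fun C => by ring
  constructor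
  · intro a b c d I J i1 i2
    refine (h1 q hq m k hm hk s a b c d I J i1 i2 T).trans ?_
    rw [e, e]
    exact mul_le_mul_of_nonneg_right (le_max_left _ _) hp
  · intro Y hY
    refine (h2 q hq m k hm hk s Y hY T).trans ?_
    rw [e, e]
    exact mul_le_mul_of_nonneg_right (le_max_right _ _) hp

end Pool.Agent.Results.MP_216314_pr.NearPercolationWindow
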